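import Pool.Agent.H648Z.LE.Nu

set_option autoImplicit false

namespace Pool.Agent.H648Z.LE

open MeasureTheory
open scoped ENNReal

open Classical in
/-- indicator of a proposition -/
noncomputable def ind (p : Prop) : ℝ≥0∞ := if p then 1 else 0

lemma measurable_ind {Ω : Type} [MeasurableSpace Ω] {p : Ω → Prop} (hp : Measurable p) :
    Measurable fun ω => ind (p ω) :=
  (Measurable.of_discrete (f := ind)).comp hp

lemma tsum_ind (p : ℕ → Prop) : ∑' v, ind (p v) = ({v | p v}.encard : ℝ≥0∞) := by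
  rw [← ENNReal.tsum_set_one, tsum_subtype {v | p v} (fun _ => (1 : ℝ≥0∞))]
  refine tsum_congr fun v => ?_
  unfold ind
  by_cases h : p v <;> simp [h]

lemma measurable_two {P : SimpleGraph ℕ → ℕ → ℕ → Prop}
    (hP : ∀ u v, Measurable fun T => P T u v) :
    Measurable fun q : SimpleGraph ℕ × ℕ × ℕ => P q.1 q.2.1 q.2.2 :=
  measurable_param (ι := ℕ × ℕ) (f := fun i (q : SimpleGraph ℕ × ℕ × ℕ) => P q.1 i.1 i.2)
    (fun i => (hP i.1 i.2).comp measurable_fst) measurable_snd

lemma measurable_one {γ : Type} [MeasurableSpace γ] {P : SimpleGraph ℕ → ℕ → γ}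
    (hP : ∀ u, Measurable fun T => P T u) :
    Measurable fun q : SimpleGraph ℕ × ℕ => P q.1 q.2 :=
  measurable_param (ι := ℕ) (f := fun i (q : SimpleGraph ℕ × ℕ) => P q.1 i)
    (fun i => (hP i).comp measurable_fst) measurable_snd

variable {μ : Measure (SimpleGraph ℕ × ℕ)}

lemma mtp_count (hμ : Unimodular μ) {P : SimpleGraph ℕ → ℕ → ℕ → Prop}
    (hP : ∀ u v, Measurable fun T => P T u v)
    (hinv : ∀ (T T' : SimpleGraph ℕ) (φ : T ≃g T') (u v : ℕ), P T' (φ u) (φ v) ↔ P T u v) :
    ∫⁻ x, ({v | P x.1 x.2 v}.encard : ℝ≥0∞) ∂μ = ∫⁻ x, ({v | P x.1 v x.2}.encard : ℝ≥0∞) ∂μ := by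
  have := hμ (fun q => ind (P q.1 q.2.1 q.2.2)) (measurable_ind (measurable_two hP))
    (fun T T' φ u v => by simp only [hinv])
  simpa only [tsum_ind] using this

lemma everywhere (hμ : Unimodular μ) {A : SimpleGraph ℕ → ℕ → Prop}
    (hA : ∀ v, Measurable fun T => A T v)
    (hinv : ∀ (T T' : SimpleGraph ℕ) (φ : T ≃g T') (v : ℕ), A T' (φ v) ↔ A T v)
    (h : ∀ᵐ x ∂μ, A x.1 x.2) : ∀ᵐ x ∂μ, ∀ v, A x.1 v := by
  have h1 := mtp_count hμ (P := fun T _ v => ¬ A T v) (fun _ v => (hA v).not)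
    (fun T T' φ _ v => by rw [hinv])
  have h2 : ∫⁻ x, ({_v : ℕ | ¬ A x.1 x.2}.encard : ℝ≥0∞) ∂μ = 0 := by
    rw [lintegral_congr_ae (g := fun _ => 0) (h.mono fun x hx => by simp [hx])]
    simp
  rw [h2] at h1
  have hm : Measurable fun x : SimpleGraph ℕ × ℕ => ({v | ¬ A x.1 v}.encard : ℝ≥0∞) :=
    (Measurable.of_discrete (f := fun n : ℕ∞ => (n : ℝ≥0∞))).comp
      (measurable_encard.comp (measurable_set_iff.2 fun v => ((hA v).comp measurable_fst).not))
  rw [lintegral_eq_zero_iff hm] at h1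
  refine h1.mono fun x hx v => ?_
  have h3 : {v | ¬ A x.1 v}.encard = 0 := by simpa using hx
  rw [Set.encard_eq_zero] at h3
  by_contra hc
  have : v ∈ {v | ¬ A x.1 v} := hc
  rw [h3] at this
  exact this

lemma nbr_encard_map {T T' : SimpleGraph ℕ} (φ : T ≃g T') (v : ℕ) :
    (T'.neighborSet (φ v)).encard = (T.neighborSet v).encard := by
  rw [← φ.injective.encard_image (T.neighborSet v)]
  congr 1
  ext w
  obtain ⟨w, rfl⟩ := φ.surjective w
  rw [φ.injective.mem_set_image]
  exact φ.map_adj_iff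

lemma measurable_deg_pred (Q : ℕ∞ → Prop) (v : ℕ) :
    Measurable fun T : SimpleGraph ℕ => Q (T.neighborSet v).encard :=
  (Measurable.of_discrete (f := Q)).comp (measurable_encard.comp (measurable_nbr measurable_id v))

lemma everywhere_deg (hμ : Unimodular μ) (Q : ℕ∞ → Prop)
    (h : ∀ᵐ x ∂μ, Q (x.1.neighborSet x.2).encard) :
    ∀ᵐ x ∂μ, ∀ v, Q (x.1.neighborSet v).encard :=
  everywhere hμ (A := fun T v => Q (T.neighborSet v).encard) (measurable_deg_pred Q)
    (fun _ _ φ v => by rw [nbr_encard_map]) h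

/-- degree decomposition at a vertex of an infinite tree -/
lemma deg_split {T : SimpleGraph ℕ} (hT : T.IsTree) (v : ℕ) :
    (T.neighborSet v).encard =
      (cN T v).encard + {w | Out T v w}.encard + {w | Out T w v}.encard := by
  rw [← Set.encard_union_eq, ← Set.encard_union_eq]
  · congr 1
    ext w
    simp only [SimpleGraph.mem_neighborSet, Set.mem_union, cN, Set.mem_ofPred_eq, Core, Out]
    constructor
    · intro h
      have := inf_or hT.connected.preconnected h
      tauto
    · rintro ((h | h) | h)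
      · exact h.1.1
      · exact h.1.1
      · exact h.1.1.symm
  · rw [Set.disjoint_left]
    rintro w (h | h) h'
    · exact h'.2 h.1
    · exact h'.2 h.1
  · rw [Set.disjoint_left]
    intro w h h'
    exact h'.2 h.2

lemma out_cases {T : SimpleGraph ℕ} (hT : T.IsTree) (v : ℕ) :
    {w | Out T v w}.encard = 0 ∨ ({w | Out T v w}.encard = 1 ∧ (cN T v).encard = 0) := by
  by_cases h : ∃ w, Out T v w
  · obtain ⟨w, hw⟩ := h
    right
    constructor
    · rw [Set.encard_eq_one]
      refine ⟨w, ?_⟩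
      ext w'
      simp only [Set.mem_ofPred_eq, Set.mem_singleton_iff]
      exact ⟨fun h' => out_unique hT.isAcyclic hw h'.1, fun h' => h' ▸ hw⟩
    · rw [Set.encard_eq_zero, Set.eq_empty_iff_forall_notMem]
      intro w' h'
      have h1 : Core T v w' := h'
      have := out_unique hT.isAcyclic hw h1.1
      subst this
      exact hw.2 h1.2
  · left
    rw [Set.encard_eq_zero, Set.eq_empty_iff_forall_notMem]
    exact fun w hw => h ⟨w, hw⟩

lemma two_le_aux {T : SimpleGraph ℕ} (hT : T.IsTree) {v : ℕ} (hv : (T.neighborSet v).Finite) :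
    2 ≤ (cN T v).encard + 2 * {w | Out T v w}.encard := by
  obtain ⟨w, hw⟩ := exists_inf hT.connected.preconnected hv
  by_cases h : Inf T w v
  · have h2 := two_le_c hT.isAcyclic hv (show Core T v w from ⟨hw, h⟩)
    have hf : (cN T v).Finite := hv.subset (cN_sub v)
    rw [← hf.cast_ncard_eq]
    refine le_trans ?_ le_self_add
    exact_mod_cast h2
  · have h1 : 1 ≤ {w | Out T v w}.encard := by
      rw [Set.one_le_encard_iff_nonempty]
      exact ⟨w, hw, h⟩
    refine le_trans ?_ le_add_self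
    calc (2 : ℕ∞) = 2 * 1 := by norm_num
      _ ≤ _ := by gcongr

end Pool.Agent.H648Z.LE
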