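import Mathlib

set_option autoImplicit false

namespace Pool.Agent.H648Z.LE

open Relation

variable {V : Type} {G : SimpleGraph V}

/-- a step avoiding the vertex `v` -/
def avoid (G : SimpleGraph V) (v : V) (a b : V) : Prop := G.Adj a b ∧ a ≠ v ∧ b ≠ v

/-- the vertices reachable from `w` avoiding `v` -/
def side (G : SimpleGraph V) (v w : V) : Set V := {x | ReflTransGen (avoid G v) w x}

/-- the direction from `v` to `w` is infinite -/
def Inf (G : SimpleGraph V) (v w : V) : Prop := G.Adj v w ∧ (side G v w).Infinite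

/-- core edge -/
def Core (G : SimpleGraph V) (v w : V) : Prop := Inf G v w ∧ Inf G w v

/-- edge out of the core, oriented towards infinity -/
def Out (G : SimpleGraph V) (v w : V) : Prop := Inf G v w ∧ ¬ Inf G w v

lemma self_mem_side (v w : V) : w ∈ side G v w := ReflTransGen.refl

lemma side_step {v w a b : V} (ha : a ∈ side G v w) (h : G.Adj a b) (h1 : a ≠ v) (h2 : b ≠ v) :
    b ∈ side G v w := ReflTransGen.tail ha ⟨h, h1, h2⟩

lemma side_ne {v w x : V} (hw : w ≠ v) (hx : x ∈ side G v w) : x ≠ v := by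
  have hx' : ReflTransGen (avoid G v) w x := hx
  induction hx' with
  | refl => exact hw
  | tail _ h _ => exact h.2.2

lemma cover (hG : G.Preconnected) (v x : V) : x = v ∨ ∃ w, G.Adj v w ∧ x ∈ side G v w := by
  have h := (G.reachable_iff_reflTransGen v x).1 (hG v x)
  induction h with
  | refl => exact Or.inl rfl
  | @tail a b _ hab ih =>
    by_cases hb : b = v
    · exact Or.inl hb
    · right
      rcases ih with rfl | ⟨w, hw, ha⟩
      · exact ⟨b, hab, self_mem_side _ _⟩
      · exact ⟨w, hw, side_step ha hab (side_ne hw.ne' ha) hb⟩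

lemma edge_cover (hG : G.Preconnected) {u v : V} (huv : G.Adj u v) (x : V) :
    x ∈ side G u v ∨ x ∈ side G v u := by
  have h := (G.reachable_iff_reflTransGen u x).1 (hG u x)
  induction h with
  | refl => exact Or.inr (self_mem_side _ _)
  | @tail a b _ hab ih =>
    by_cases hb : b = u
    · subst hb; exact Or.inr (self_mem_side _ _)
    by_cases hb' : b = v
    · subst hb'; exact Or.inl (self_mem_side _ _)
    rcases ih with ha | ha
    · exact Or.inl (side_step ha hab (side_ne huv.ne' ha) hb)
    · exact Or.inr (side_step ha hab (side_ne huv.ne ha) hb')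

lemma not_mem_side (hG : G.IsAcyclic) {v w w' : V} (h : G.Adj v w) (h' : G.Adj v w')
    (hne : w ≠ w') : w ∉ side G v w' := by
  intro hw
  have hb := SimpleGraph.isAcyclic_iff_forall_adj_isBridge.1 hG h
  rw [SimpleGraph.isBridge_iff] at hb
  have key : ∀ x, x ∈ side G v w' → (G.deleteEdges {s(v, w)}).Reachable v x := by
    intro x hx
    have hx' : ReflTransGen (avoid G v) w' x := hx
    induction hx' with
    | refl =>
      refine SimpleGraph.Adj.reachable ?_
      rw [SimpleGraph.deleteEdges_adj]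
      refine ⟨h', ?_⟩
      simp only [Set.mem_singleton_iff, Sym2.eq_iff, true_and, not_or, not_and]
      exact ⟨fun e => hne e.symm, fun e _ => h.ne e⟩
    | @tail a b hwa hab ih =>
      refine (ih hwa).trans (SimpleGraph.Adj.reachable ?_)
      rw [SimpleGraph.deleteEdges_adj]
      refine ⟨hab.1, ?_⟩
      simp only [Set.mem_singleton_iff, Sym2.eq_iff, not_or, not_and]
      exact ⟨fun e _ => hab.2.1 e, fun _ e => hab.2.2 e⟩
  exact hb (key w hw)

lemma side_sub (hG : G.IsAcyclic) {v w w' : V} (h : G.Adj v w) (h' : G.Adj v w')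
    (hne : w ≠ w') : side G v w' ⊆ side G w v := by
  intro x hx
  have hx' : ReflTransGen (avoid G v) w' x := hx
  induction hx' with
  | refl => exact side_step (self_mem_side _ _) h' h.ne hne.symm
  | @tail a b hwa hab ih =>
    have ha : a ∈ side G v w' := hwa
    have hb : b ∈ side G v w' := hx
    refine side_step (ih ha) hab.1 ?_ ?_
    · rintro rfl; exact not_mem_side hG h h' hne ha
    · rintro rfl; exact not_mem_side hG h h' hne hb

lemma side_split {v w x : V} (hx : x ∈ side G w v) :
    x = v ∨ ∃ w', G.Adj v w' ∧ w' ≠ w ∧ x ∈ side G v w' := by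
  have hx' : ReflTransGen (avoid G w) v x := hx
  induction hx' with
  | refl => exact Or.inl rfl
  | @tail a b hwa hab ih =>
    by_cases hb : b = v
    · exact Or.inl hb
    · right
      rcases ih hwa with rfl | ⟨w', hw', hne, ha⟩
      · exact ⟨b, hab.1, hab.2.2, self_mem_side _ _⟩
      · exact ⟨w', hw', hne, side_step ha hab.1 (side_ne hw'.ne' ha) hb⟩

lemma inf_or [Infinite V] (hG : G.Preconnected) {u v : V} (huv : G.Adj u v) :
    Inf G u v ∨ Inf G v u := by
  by_contra hc
  rw [not_or] at hc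
  have h1 : (side G u v).Finite := by
    by_contra h; exact hc.1 ⟨huv, h⟩
  have h2 : (side G v u).Finite := by
    by_contra h; exact hc.2 ⟨huv.symm, h⟩
  exact Set.infinite_univ ((h1.union h2).subset fun x _ => edge_cover hG huv x)

lemma exists_inf [Infinite V] (hG : G.Preconnected) {v : V} (hv : (G.neighborSet v).Finite) :
    ∃ w, Inf G v w := by
  by_contra hc
  rw [not_exists] at hc
  have h1 : ∀ w ∈ G.neighborSet v, (side G v w).Finite := by
    intro w hw
    by_contra h; exact hc w ⟨hw, h⟩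
  have h2 := (hv.biUnion h1).insert v
  refine Set.infinite_univ (h2.subset fun x _ => ?_)
  rcases cover hG v x with rfl | ⟨w, hw, hx⟩
  · exact Set.mem_insert _ _
  · exact Set.mem_insert_of_mem _ (Set.mem_biUnion hw hx)

lemma inf_back (hG : G.IsAcyclic) {v w w' : V} (h : G.Adj v w) (h' : Inf G v w')
    (hne : w ≠ w') : Inf G w v :=
  ⟨h.symm, h'.2.mono (side_sub hG h h'.1 hne)⟩

lemma inf_fwd {v w : V} (hv : (G.neighborSet v).Finite) (h : Inf G w v) :
    ∃ w', w' ≠ w ∧ Inf G v w' := by
  by_contra hc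
  simp only [not_exists, not_and] at hc
  have h1 : ∀ w' ∈ G.neighborSet v \ {w}, (side G v w').Finite := by
    intro w' hw'
    by_contra hh; exact hc w' hw'.2 ⟨hw'.1, hh⟩
  have h2 := ((hv.subset Set.sdiff_subset).biUnion h1).insert v
  refine h.2 (h2.subset fun x hx => ?_)
  rcases side_split hx with rfl | ⟨w', hw', hne, hx'⟩
  · exact Set.mem_insert _ _
  · exact Set.mem_insert_of_mem _ (Set.mem_biUnion (show w' ∈ G.neighborSet v \ {w} from ⟨hw', hne⟩) hx')

lemma Core.symm {v w : V} (h : Core G v w) : Core G w v := ⟨h.2, h.1⟩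

lemma Core.adj {v w : V} (h : Core G v w) : G.Adj v w := h.1.1

lemma core_two (hG : G.IsAcyclic) {v w : V} (hv : (G.neighborSet v).Finite) (h : Core G v w) :
    ∃ w', w' ≠ w ∧ Core G v w' := by
  obtain ⟨w', hne, h'⟩ := inf_fwd hv h.2
  exact ⟨w', hne, h', inf_back hG h'.1 h.1 hne⟩

lemma out_unique (hG : G.IsAcyclic) {v w w' : V} (h : Out G v w) (h' : Inf G v w') : w' = w := by
  by_contra hne
  exact h.2 (inf_back hG h.1.1 h' (Ne.symm hne))

lemma all_inf (hG : G.IsAcyclic) (h2 : ∀ v w, G.Adj v w → ∃ w', w' ≠ v ∧ G.Adj w w') {v w : V}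
    (h : G.Adj v w) : Inf G v w := by
  refine ⟨h, ?_⟩
  intro hfin
  generalize hn : (side G v w).ncard = n
  induction n using Nat.strong_induction_on generalizing v w with
  | _ n ih =>
    obtain ⟨w', hne, hw'⟩ := h2 v w h
    have hsub : side G w w' ⊆ side G v w := side_sub hG h.symm hw' hne.symm
    have hss : side G w w' ⊂ side G v w :=
      ⟨hsub, fun hh => side_ne hw'.ne' (hh (self_mem_side v w)) rfl⟩
    exact ih _ (hn ▸ Set.ncard_lt_ncard hss hfin) hw' (hfin.subset hsub) rfl

/-! equivariance -/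

variable {G' : SimpleGraph V}

lemma side_map (φ : G ≃g G') {v w x : V} (hx : x ∈ side G v w) :
    φ x ∈ side G' (φ v) (φ w) := by
  refine ReflTransGen.lift (r := avoid G v) (p := avoid G' (φ v)) φ ?_ _ _ hx
  intro a b hab
  exact ⟨φ.map_adj_iff.2 hab.1, fun e => hab.2.1 (φ.injective e), fun e => hab.2.2 (φ.injective e)⟩

lemma inf_map (φ : G ≃g G') {v w : V} (h : Inf G v w) : Inf G' (φ v) (φ w) := by
  refine ⟨φ.map_adj_iff.2 h.1, ?_⟩
  refine (h.2.image φ.injective.injOn).mono ?_
  rintro _ ⟨x, hx, rfl⟩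
  exact side_map φ hx

lemma inf_iff (φ : G ≃g G') (v w : V) : Inf G' (φ v) (φ w) ↔ Inf G v w :=
  ⟨fun h => by simpa using inf_map φ.symm h, inf_map φ⟩

lemma core_iff (φ : G ≃g G') (v w : V) : Core G' (φ v) (φ w) ↔ Core G v w := by
  unfold Core; rw [inf_iff, inf_iff]

lemma out_iff (φ : G ≃g G') (v w : V) : Out G' (φ v) (φ w) ↔ Out G v w := by
  unfold Out; rw [inf_iff, inf_iff]

end Pool.Agent.H648Z.LE
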