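import Mathlib

set_option autoImplicit false

open MeasureTheory
open scoped ENNReal

namespace Pool.Agent.H648Z.LE

/-- The mass transport principle for a random rooted graph `(T, o)` with vertex set `ℕ` and law
`μ`: it holds for every measurable `F ≥ 0` on doubly rooted graphs that is invariant under
isomorphisms of doubly rooted graphs. -/
def Unimodular (μ : Measure (SimpleGraph ℕ × ℕ)) : Prop :=
  ∀ F : SimpleGraph ℕ × ℕ × ℕ → ℝ≥0∞, Measurable F →
    (∀ (T T' : SimpleGraph ℕ) (φ : T ≃g T') (u v : ℕ), F (T', φ u, φ v) = F (T, u, v)) →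
    ∫⁻ x, ∑' v, F (x.1, x.2, v) ∂μ = ∫⁻ x, ∑' v, F (x.1, v, x.2) ∂μ

/-- The mass transport principle for a random edge-marked rooted graph `((T, o), L)` with law `ν`
(the marked edges form the graph `L`): it holds for every measurable `F ≥ 0` on doubly rooted
marked graphs that is invariant under isomorphisms preserving the marks. -/
def UnimodularMarked (ν : Measure ((SimpleGraph ℕ × ℕ) × SimpleGraph ℕ)) : Prop :=
  ∀ F : (SimpleGraph ℕ × SimpleGraph ℕ) × ℕ × ℕ → ℝ≥0∞, Measurable F →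
    (∀ (T T' L L' : SimpleGraph ℕ) (φ : T ≃g T'), (∀ a b, L'.Adj (φ a) (φ b) ↔ L.Adj a b) →
      ∀ u v : ℕ, F ((T', L'), φ u, φ v) = F ((T, L), u, v)) →
    ∫⁻ y, ∑' v, F ((y.1.1, y.2), y.1.2, v) ∂ν = ∫⁻ y, ∑' v, F ((y.1.1, y.2), v, y.1.2) ∂ν

/-- `L` is a line ensemble of `T`: a set of edges of `T` such that every vertex meets either `0`
or `2` of them. -/
def IsLineEnsemble (T L : SimpleGraph ℕ) : Prop :=
  L ≤ T ∧ ∀ v, (L.neighborSet v).encard = 0 ∨ (L.neighborSet v).encard = 2

end Pool.Agent.H648Z.LE
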