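import Mathlib

set_option autoImplicit false

namespace Pool.Agent.H648Z.LE

open Relation

variable {V : Type} {α : Type}

/-- one step of parallel transport -/
def step (G : SimpleGraph V) (τ : V → V → Equiv.Perm α) (p q : V × α) : Prop :=
  G.Adj p.1 q.1 ∧ τ p.1 q.1 p.2 = τ q.1 p.1 q.2

/-- parallel transport -/
def Reach (G : SimpleGraph V) (τ : V → V → Equiv.Perm α) (p q : V × α) : Prop :=
  ReflTransGen (step G τ) p q

variable {G : SimpleGraph V} {τ : V → V → Equiv.Perm α}

lemma step_symm {p q : V × α} (h : step G τ p q) : step G τ q p := ⟨h.1.symm, h.2.symm⟩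

lemma Reach.symm {p q : V × α} (h : Reach G τ p q) : Reach G τ q p := by
  induction h with
  | refl => exact ReflTransGen.refl
  | tail _ hs ih => exact ReflTransGen.head (step_symm hs) ih

lemma Reach.trans {p q r : V × α} (h : Reach G τ p q) (h' : Reach G τ q r) : Reach G τ p r :=
  ReflTransGen.trans h h'

/-- holonomy along a walk -/
def hol (τ : V → V → Equiv.Perm α) : {x y : V} → G.Walk x y → α → α
  | _, _, .nil, a => a
  | x, _, .cons (v := z) _ p, a => hol τ p ((τ z x).symm (τ x z a))

lemma hol_concat {x y z : V} (p : G.Walk x y) (h : G.Adj y z) (a : α) :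
    hol τ (p.concat h) a = (τ z y).symm (τ y z (hol τ p a)) := by
  induction p generalizing a with
  | nil => rfl
  | cons h' p ih =>
    rw [SimpleGraph.Walk.concat_cons]
    simp only [hol]
    exact ih h _

lemma exists_section (hG : G.IsTree) (b : V) (a : α) :
    ∃ p : V → α, p b = a ∧ ∀ u v, G.Adj u v → τ u v (p u) = τ v u (p v) := by
  choose P hP hu using fun v => hG.existsUnique_path b v
  refine ⟨fun v => hol τ (P v) a, ?_, ?_⟩
  · have : P b = SimpleGraph.Walk.nil := (hu b _ SimpleGraph.Walk.IsPath.nil).symm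
    simp only [this, hol]
  · have key : ∀ u v, G.Adj u v → u ∈ (P v).support →
        τ u v (hol τ (P u) a) = τ v u (hol τ (P v) a) := by
      intro u v huv hs
      have := hG.isAcyclic.path_concat (hP u) (hP v) huv hs
      rw [this, hol_concat]
      simp
    intro u v huv
    by_cases hs : v ∈ (P u).support
    · exact (key v u huv.symm hs).symm
    · exact key u v huv
        (hG.isAcyclic.mem_support_of_ne_mem_support_of_adj_of_isPath (hP v) (hP u) huv.symm hs)

lemma exists_reach (hG : G.IsTree) (b : V) (a : α) :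
    ∃ p : V → α, p b = a ∧ ∀ v a', Reach G τ (b, a) (v, a') ↔ a' = p v := by
  obtain ⟨p, hb, hp⟩ := exists_section (τ := τ) hG b a
  refine ⟨p, hb, fun v a' => ⟨fun h => ?_, ?_⟩⟩
  · have key : ∀ q : V × α, Reach G τ (b, a) q → q.2 = p q.1 := by
      intro q hq
      induction hq with
      | refl => exact hb.symm
      | @tail q r _ hs ih =>
        have h1 := hs.2
        rw [ih, hp _ _ hs.1] at h1
        exact ((τ r.1 q.1).injective h1).symm
    exact key _ h
  · rintro rfl
    have h := (G.reachable_iff_reflTransGen b v).1 (hG.connected.preconnected b v)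
    induction h with
    | refl => rw [hb]; exact ReflTransGen.refl
    | @tail x y _ hxy ih => exact ReflTransGen.tail ih ⟨hxy, hp _ _ hxy⟩

lemma reach_self (hG : G.IsTree) (b : V) (a a' : α) : Reach G τ (b, a) (b, a') ↔ a' = a := by
  obtain ⟨p, hb, hp⟩ := exists_reach (τ := τ) hG b a
  rw [hp, hb]

lemma base_change [Finite α] (hG : G.IsTree) (b b' : V) :
    ∃ e : α ≃ α, ∀ a q, Reach G τ (b, a) q ↔ Reach G τ (b', e a) q := by
  choose p hb hp using fun a => exists_reach (τ := τ) hG b a
  have h1 : ∀ a, Reach G τ (b, a) (b', p a b') := fun a => (hp a b' _).2 rfl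
  have hinj : Function.Injective fun a => p a b' := by
    intro a1 a2 h
    have h2 : Reach G τ (b, a1) (b, a2) := by
      refine (h1 a1).trans ?_
      have h3 : p a1 b' = p a2 b' := h
      rw [h3]
      exact (h1 a2).symm
    exact ((reach_self hG b a1 a2).1 h2).symm
  refine ⟨Equiv.ofBijective _ (Finite.injective_iff_bijective.1 hinj), fun a q => ?_⟩
  exact ⟨fun h => (h1 a).symm.trans h, fun h => (h1 a).trans h⟩

lemma reach_map {G' : SimpleGraph V} {τ' : V → V → Equiv.Perm α} (φ : G ≃g G')
    (hτ : ∀ u v, τ' (φ u) (φ v) = τ u v) {b v : V} {a a' : α}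
    (h : Reach G τ (b, a) (v, a')) : Reach G' τ' (φ b, a) (φ v, a') := by
  refine ReflTransGen.lift (r := step G τ) (p := step G' τ') (fun q => (φ q.1, q.2)) ?_ _ _ h
  intro q r hqr
  refine ⟨φ.map_adj_iff.2 hqr.1, ?_⟩
  simp only [hτ]
  exact hqr.2

lemma reach_iff {G' : SimpleGraph V} {τ' : V → V → Equiv.Perm α} (φ : G ≃g G')
    (hτ : ∀ u v, τ' (φ u) (φ v) = τ u v) (b v : V) (a a' : α) :
    Reach G' τ' (φ b, a) (φ v, a') ↔ Reach G τ (b, a) (v, a') := by
  refine ⟨fun h => ?_, reach_map φ hτ⟩
  have := reach_map (τ := τ') (τ' := τ) φ.symm (fun u v => by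
    rw [← hτ]; simp) h
  simpa using this

end Pool.Agent.H648Z.LE
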