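import Pool.Agent.H648Z.LE.Comb
import Pool.Agent.H648Z.LE.Sec

set_option autoImplicit false

namespace Pool.Agent.H648Z.LE

open Relation

variable {V : Type} {β : Type} [LinearOrder β]

/-- core neighbours -/
def cN (G : SimpleGraph V) (v : V) : Set V := {w | Core G v w}

/-- rank of a core neighbour -/
noncomputable def rk (G : SimpleGraph V) (U : V → β) (v w : V) : ℕ :=
  {w' | Core G v w' ∧ U w' < U w}.ncard

open Classical in
/-- a permutation sending `r` and `r + 1 mod c` to `0` and `1` -/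
noncomputable def gp (d r c : ℕ) : Equiv.Perm (Fin d) :=
  if h : ∃ σ : Equiv.Perm (Fin d), ∀ a, (σ a).val < 2 ↔ (a.val = r ∨ a.val = (r + 1) % c)
  then h.choose else 1

lemma gp_spec {d r c : ℕ} (h2 : 2 ≤ c) (hc : c ≤ d) (hr : r < c) (a : Fin d) :
    (gp d r c a).val < 2 ↔ (a.val = r ∨ a.val = (r + 1) % c) := by
  have hex : ∃ σ : Equiv.Perm (Fin d), ∀ a, (σ a).val < 2 ↔ (a.val = r ∨ a.val = (r + 1) % c) := by
    have hm : (r + 1) % c < c := Nat.mod_lt _ (by omega)
    have hne : (r + 1) % c ≠ r := by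
      by_cases h : r + 1 < c
      · rw [Nat.mod_eq_of_lt h]; omega
      · have : r + 1 = c := by omega
        rw [this, Nat.mod_self]; omega
    let f : Fin 2 → Fin d := fun i => if i = 0 then ⟨r, by omega⟩ else ⟨(r + 1) % c, by omega⟩
    let g : Fin 2 → Fin d := fun i => ⟨i.val, by omega⟩
    have hf : Function.Injective f := by
      intro i j hij
      have h' := congrArg Fin.val hij
      by_cases hi : i = 0 <;> by_cases hj : j = 0
      · rw [hi, hj]
      · simp only [f, if_pos hi, if_neg hj] at h'; exact absurd h'.symm hne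
      · simp only [f, if_neg hi, if_pos hj] at h'; exact absurd h' hne
      · omega
    have hg : Function.Injective g := by
      intro i j hij
      simpa [g, Fin.ext_iff] using hij
    obtain ⟨σ, hσ⟩ := Equiv.Perm.exists_extending_pair f g hf hg
    refine ⟨σ, fun a => ⟨fun h => ?_, fun h => ?_⟩⟩
    · have h1 : σ a = σ (f ⟨(σ a).val, h⟩) := by rw [hσ]
      have h3 := σ.injective h1
      by_cases h0 : (⟨(σ a).val, h⟩ : Fin 2) = 0
      · left; rw [h3]; simp only [f, if_pos h0]
      · right; rw [h3]; simp only [f, if_neg h0]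
    · rcases h with h | h
      · have : a = f 0 := by ext; simpa [f] using h
        rw [this, hσ]; simp [g]
      · have : a = f 1 := by ext; simpa [f] using h
        rw [this, hσ]; simp [g]
  unfold gp
  rw [dif_pos hex]
  exact hex.choose_spec a

/-- the local permutations -/
noncomputable def tau (d : ℕ) (G : SimpleGraph V) (U : V → β) (v w : V) : Equiv.Perm (Fin d) :=
  gp d (rk G U v w) (cN G v).ncard

/-- the line ensemble -/
def Lg (d : ℕ) (G : SimpleGraph V) (U : V → β) (b : V) (a : Fin d) : SimpleGraph V where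
  Adj u v := Core G u v ∧ ∃ a', Reach G (tau d G U) (b, a) (u, a') ∧ (tau d G U u v a').val < 2
  symm := ⟨by
    rintro u v ⟨hc, a', hr, h2⟩
    refine ⟨hc.symm, (tau d G U v u).symm (tau d G U u v a'), ?_, by simpa using h2⟩
    exact ReflTransGen.tail hr ⟨hc.adj, by simp⟩⟩
  loopless := ⟨fun v h => h.1.adj.ne rfl⟩

variable {G : SimpleGraph V} {U : V → β} {d : ℕ}

lemma Lg_le (b : V) (a : Fin d) : Lg d G U b a ≤ G := fun _ _ h => h.1.adj

lemma cN_sub (v : V) : cN G v ⊆ G.neighborSet v := fun _ h => Core.adj h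

lemma rk_lt {v w : V} (hv : (cN G v).Finite) (hw : w ∈ cN G v) : rk G U v w < (cN G v).ncard := by
  refine Set.ncard_lt_ncard ⟨fun x hx => hx.1, fun h => ?_⟩ hv
  exact lt_irrefl _ (h hw).2

lemma rk_injOn (hU : Function.Injective U) {v : V} (hv : (cN G v).Finite) :
    Set.InjOn (rk G U v) (cN G v) := by
  have key : ∀ w w', w ∈ cN G v → U w < U w' → rk G U v w < rk G U v w' := by
    intro w w' hw h
    refine Set.ncard_lt_ncard ⟨fun x hx => ⟨hx.1, hx.2.trans h⟩, fun hh => ?_⟩
      (hv.subset fun x hx => hx.1)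
    exact lt_irrefl _ (hh (show w ∈ {w'' | Core G v w'' ∧ U w'' < U w'} from ⟨hw, h⟩)).2
  intro w hw w' hw' h
  rcases lt_trichotomy (U w) (U w') with h1 | h1 | h1
  · exact absurd h (key w w' hw h1).ne
  · exact hU h1
  · exact absurd h (key w' w hw' h1).ne'

lemma rk_surj (hU : Function.Injective U) {v : V} (hv : (cN G v).Finite) {r : ℕ}
    (hr : r < (cN G v).ncard) : ∃ w ∈ cN G v, rk G U v w = r := by
  have h1 : rk G U v '' cN G v = Set.Iio (cN G v).ncard := by
    refine Set.eq_of_subset_of_ncard_le ?_ ?_ (Set.finite_Iio _)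
    · rintro _ ⟨w, hw, rfl⟩
      exact rk_lt hv hw
    · rw [(rk_injOn hU hv).ncard_image]
      simp
  have : r ∈ rk G U v '' cN G v := by rw [h1]; exact hr
  exact this

lemma two_le_c (hG : G.IsAcyclic) {v w : V} (hv : (G.neighborSet v).Finite) (h : Core G v w) :
    2 ≤ (cN G v).ncard := by
  obtain ⟨w', hne, h'⟩ := core_two hG hv h
  have hf : (cN G v).Finite := hv.subset (cN_sub v)
  have : 1 < (cN G v).ncard := (Set.one_lt_ncard hf).2 ⟨w', h', w, h, hne⟩
  omega

lemma nbr_eq (hG : G.IsTree) {v : V} (hv : (G.neighborSet v).Finite)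
    (hd : (cN G v).ncard ≤ d) (b : V) (a a' : Fin d)
    (h : ∀ a'', Reach G (tau d G U) (b, a) (v, a'') ↔ a'' = a') :
    (Lg d G U b a).neighborSet v =
      {w | w ∈ cN G v ∧ (a'.val = rk G U v w ∨ a'.val = (rk G U v w + 1) % (cN G v).ncard)} := by
  have hf : (cN G v).Finite := hv.subset (cN_sub v)
  ext w
  simp only [SimpleGraph.mem_neighborSet, Set.mem_ofPred_eq]
  constructor
  · rintro ⟨hc, a'', hr, h2⟩
    rw [(h a'').1 hr] at h2
    exact ⟨hc, (gp_spec (two_le_c hG.isAcyclic hv hc) hd (rk_lt hf hc) a').1 h2⟩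
  · rintro ⟨hc, h2⟩
    exact ⟨hc, a', (h a').2 rfl, (gp_spec (two_le_c hG.isAcyclic hv hc) hd (rk_lt hf hc) a').2 h2⟩

lemma mod_aux {c r s : ℕ} (hr : r < c) (hs : s < c) : s = (r + 1) % c ↔ r = (s + c - 1) % c := by
  by_cases h : r + 1 < c
  · rw [Nat.mod_eq_of_lt h]
    by_cases h0 : s = 0
    · subst h0
      rw [Nat.mod_eq_of_lt (by omega)]; omega
    · have : s + c - 1 = (s - 1) + c := by omega
      rw [this, Nat.add_mod_right, Nat.mod_eq_of_lt (by omega)]; omega
  · have h1 : r + 1 = c := by omega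
    rw [h1, Nat.mod_self]
    by_cases h0 : s = 0
    · subst h0
      rw [Nat.mod_eq_of_lt (by omega)]; omega
    · have : s + c - 1 = (s - 1) + c := by omega
      rw [this, Nat.add_mod_right, Nat.mod_eq_of_lt (by omega)]; omega

lemma pick_set (hG : G.IsAcyclic) (hU : Function.Injective U) {v : V}
    (hv : (G.neighborSet v).Finite) (s : ℕ) :
    (s < (cN G v).ncard →
      {w | w ∈ cN G v ∧ (s = rk G U v w ∨ s = (rk G U v w + 1) % (cN G v).ncard)}.encard = 2) ∧
    (¬ s < (cN G v).ncard →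
      {w | w ∈ cN G v ∧ (s = rk G U v w ∨ s = (rk G U v w + 1) % (cN G v).ncard)} = ∅) := by
  have hf : (cN G v).Finite := hv.subset (cN_sub v)
  constructor
  · intro hs
    obtain ⟨w1, hw1, e1⟩ := rk_surj hU hf hs
    have h2 := two_le_c hG hv hw1
    have hm : (s + (cN G v).ncard - 1) % (cN G v).ncard < (cN G v).ncard := Nat.mod_lt _ (by omega)
    obtain ⟨w2, hw2, e2⟩ := rk_surj hU hf hm
    have hne : w1 ≠ w2 := by
      rintro rfl
      rw [e1] at e2
      have := (mod_aux hs hs).2 e2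
      by_cases h : s + 1 < (cN G v).ncard
      · rw [Nat.mod_eq_of_lt h] at this; omega
      · have h1 : s + 1 = (cN G v).ncard := by omega
        rw [h1, Nat.mod_self] at this; omega
    rw [← Set.encard_pair hne]
    congr 1
    ext w
    simp only [Set.mem_ofPred_eq, Set.mem_insert_iff, Set.mem_singleton_iff]
    constructor
    · rintro ⟨hw, h | h⟩
      · left; exact rk_injOn hU hf hw hw1 (by rw [e1, h])
      · right
        exact rk_injOn hU hf hw hw2 (by rw [e2]; exact (mod_aux (rk_lt hf hw) hs).1 h)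
    · rintro (rfl | rfl)
      · exact ⟨hw1, Or.inl e1.symm⟩
      · exact ⟨hw2, Or.inr ((mod_aux (rk_lt hf hw2) hs).2 e2)⟩
  · intro hs
    ext w
    simp only [Set.mem_ofPred_eq, Set.mem_empty_iff_false, iff_false, not_and, not_or]
    intro hw
    have h1 := rk_lt (U := U) hf hw
    have hm : (rk G U v w + 1) % (cN G v).ncard < (cN G v).ncard := Nat.mod_lt _ (by omega)
    constructor <;> omega

lemma Lg_deg (hG : G.IsTree) (hU : Function.Injective U) (hfin : ∀ v, (G.neighborSet v).Finite)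
    (hd : ∀ v, (cN G v).ncard ≤ d) (b : V) (a : Fin d) (v : V) :
    ((Lg d G U b a).neighborSet v).encard = 0 ∨ ((Lg d G U b a).neighborSet v).encard = 2 := by
  obtain ⟨p, -, hp⟩ := exists_reach (τ := tau d G U) hG b a
  rw [nbr_eq hG (hfin v) (hd v) b a (p v) (hp v)]
  have := pick_set hG.isAcyclic hU (hfin v) (p v).val
  by_cases h : (p v).val < (cN G v).ncard
  · exact Or.inr (this.1 h)
  · left; rw [this.2 h]; simp

lemma Lg_root (hG : G.IsTree) (hU : Function.Injective U) {b : V} (hfin : (G.neighborSet b).Finite)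
    (hd : (cN G b).ncard ≤ d) (a : Fin d) :
    (∃ v, (Lg d G U b a).Adj b v) ↔ a.val < (cN G b).ncard := by
  have h1 := nbr_eq (U := U) hG hfin hd b a a (fun a'' => reach_self hG b a a'')
  have h2 := pick_set hG.isAcyclic hU hfin a.val
  rw [← h1] at h2
  constructor
  · rintro ⟨v, hv⟩
    by_contra h
    have : v ∈ (Lg d G U b a).neighborSet b := hv
    rw [h2.2 h] at this
    exact this
  · intro h
    have h3 := h2.1 h
    have : ((Lg d G U b a).neighborSet b).Nonempty := by
      rw [← Set.encard_pos, h3]; norm_num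
    exact this

lemma Lg_base (hG : G.IsTree) (U : V → β) (b b' : V) :
    ∃ e : Fin d ≃ Fin d, ∀ a, Lg d G U b a = Lg d G U b' (e a) := by
  obtain ⟨e, he⟩ := base_change (τ := tau d G U) hG b b'
  refine ⟨e, fun a => ?_⟩
  ext u v
  simp only [Lg, he]

/-! equivariance -/

variable {G' : SimpleGraph V}

lemma cN_map (φ : G ≃g G') (v : V) : cN G' (φ v) = φ '' cN G v := by
  ext w
  obtain ⟨w, rfl⟩ := φ.surjective w
  rw [φ.injective.mem_set_image]
  exact core_iff φ v w

lemma cN_ncard (φ : G ≃g G') (v : V) : (cN G' (φ v)).ncard = (cN G v).ncard := by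
  rw [cN_map, Set.ncard_image_of_injective _ φ.injective]

lemma rk_map (φ : G ≃g G') (U : V → β) (v w : V) :
    rk G' (U ∘ φ.symm) (φ v) (φ w) = rk G U v w := by
  unfold rk
  rw [← Set.ncard_image_of_injective {w' | Core G v w' ∧ U w' < U w} φ.injective]
  congr 1
  ext x
  obtain ⟨x, rfl⟩ := φ.surjective x
  rw [φ.injective.mem_set_image]
  simp [core_iff]

lemma tau_map (φ : G ≃g G') (U : V → β) (v w : V) :
    tau d G' (U ∘ φ.symm) (φ v) (φ w) = tau d G U v w := by
  unfold tau
  rw [rk_map, cN_ncard]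

lemma Lg_map (φ : G ≃g G') (U : V → β) (b : V) (a : Fin d) (u v : V) :
    (Lg d G' (U ∘ φ.symm) (φ b) a).Adj (φ u) (φ v) ↔ (Lg d G U b a).Adj u v := by
  simp only [Lg, core_iff, tau_map, reach_iff φ (tau_map φ U)]

end Pool.Agent.H648Z.LE
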