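import Pool.Agent.H648Z.LE.Acc

set_option autoImplicit false

namespace Pool.Agent.H648Z.LE

open MeasureTheory
open scoped ENNReal

variable {μ : Measure (SimpleGraph ℕ × ℕ)}

lemma measurable_coe_encard {Ω : Type} [MeasurableSpace Ω] {S : Ω → Set ℕ} (hS : Measurable S) :
    Measurable fun ω => ((S ω).encard : ℝ≥0∞) :=
  (Measurable.of_discrete (f := fun n : ℕ∞ => (n : ℝ≥0∞))).comp (measurable_encard.comp hS)

lemma m_deg : Measurable fun x : SimpleGraph ℕ × ℕ => ((x.1.neighborSet x.2).encard : ℝ≥0∞) :=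
  measurable_coe_encard (measurable_one (P := fun T u => T.neighborSet u)
    fun u => measurable_nbr measurable_id u)

lemma m_c : Measurable fun x : SimpleGraph ℕ × ℕ => ((cN x.1 x.2).encard : ℝ≥0∞) :=
  measurable_coe_encard (measurable_one (P := fun T u => cN T u)
    fun u => measurable_cN measurable_id u)

lemma m_out : Measurable fun x : SimpleGraph ℕ × ℕ => ({w | Out x.1 x.2 w}.encard : ℝ≥0∞) :=
  measurable_coe_encard (measurable_one (P := fun T u => {w | Out T u w})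
    fun u => measurable_set_iff.2 fun w => measurable_out measurable_id u w)

lemma deg_eq (hμ : Unimodular μ) (htree : ∀ᵐ x ∂μ, x.1.IsTree) :
    ∫⁻ x, ((x.1.neighborSet x.2).encard : ℝ≥0∞) ∂μ =
      ∫⁻ x, (((cN x.1 x.2).encard : ℝ≥0∞) + 2 * ({w | Out x.1 x.2 w}.encard : ℝ≥0∞)) ∂μ := by
  have h1 := mtp_count hμ (P := Out) (fun u v => measurable_out measurable_id u v)
    (fun _ _ φ u v => out_iff φ u v)
  rw [lintegral_add_left m_c, lintegral_const_mul _ m_out, two_mul, ← add_assoc]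
  nth_rewrite 2 [h1]
  rw [← lintegral_add_left m_c, ← lintegral_add_left (m_c.fun_add m_out)]
  refine lintegral_congr_ae (htree.mono fun x hx => ?_)
  simp only
  rw [deg_split hx]
  push_cast
  rfl

lemma key_ineq [IsProbabilityMeasure μ] {d : ℕ} (hd : 2 ≤ d) (hμ : Unimodular μ)
    (hgood : ∀ᵐ x ∂μ, x.1.IsTree ∧ ∀ v, (x.1.neighborSet v).Finite)
    (hdeg : ∀ᵐ x ∂μ, (x.1.neighborSet x.2).encard ≤ (d : ℕ∞)) :
    3 * ∫⁻ x, ((x.1.neighborSet x.2).encard : ℝ≥0∞) ∂μ ≤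
      ∫⁻ x, ((cN x.1 x.2).encard : ℝ≥0∞) ∂μ + 2 * d := by
  have htree : ∀ᵐ x ∂μ, x.1.IsTree := hgood.mono fun x hx => hx.1
  have h1 := deg_eq hμ htree
  rcases Nat.lt_or_ge d 3 with h3 | h3
  · obtain rfl : d = 2 := by omega
    have hle : (fun x : SimpleGraph ℕ × ℕ => ((x.1.neighborSet x.2).encard : ℝ≥0∞)) ≤ᵐ[μ]
        fun _ => 2 := hdeg.mono fun x hx => by
      have : ((x.1.neighborSet x.2).encard : ℝ≥0∞) ≤ (((2 : ℕ) : ℕ∞) : ℝ≥0∞) :=
        ENat.toENNReal_le.2 hx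
      simpa using this
    have hX : ∫⁻ x, ((x.1.neighborSet x.2).encard : ℝ≥0∞) ∂μ ≤ 2 := by
      calc _ ≤ ∫⁻ _, (2 : ℝ≥0∞) ∂μ := lintegral_mono_ae hle
        _ = 2 := by simp
    have hge : ∫⁻ _, (2 : ℝ≥0∞) ∂μ ≤ ∫⁻ x, ((x.1.neighborSet x.2).encard : ℝ≥0∞) ∂μ := by
      rw [h1]
      refine lintegral_mono_ae (hgood.mono fun x hx => ?_)
      have := ENat.toENNReal_le.2 (two_le_aux hx.1 (hx.2 x.2))
      simpa using this
    have heq := ae_eq_of_ae_le_of_lintegral_le hle (ne_top_of_le_ne_top (by simp) hX)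
      aemeasurable_const hge
    have heq' : ∀ᵐ x ∂μ, (x.1.neighborSet x.2).encard = 2 := heq.mono fun x hx => by
      have : ((x.1.neighborSet x.2).encard : ℝ≥0∞) = ((2 : ℕ∞) : ℝ≥0∞) := by simpa using hx
      exact ENat.toENNReal_inj.1 this
    have hall := everywhere_deg hμ (fun n => n = 2) heq'
    have hC : ∫⁻ x, ((cN x.1 x.2).encard : ℝ≥0∞) ∂μ = 2 := by
      rw [lintegral_congr_ae (g := fun _ => 2)]
      · simp
      · filter_upwards [hall, htree] with x hx hT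
        have h2 : ∀ v w, x.1.Adj v w → ∃ w', w' ≠ v ∧ x.1.Adj w w' := by
          intro v w _
          have : 1 < (x.1.neighborSet w).encard := by rw [hx w]; norm_num
          obtain ⟨w', hw', hne⟩ := Set.exists_ne_of_one_lt_encard this v
          exact ⟨w', hne, hw'⟩
        have : cN x.1 x.2 = x.1.neighborSet x.2 := by
          refine Set.Subset.antisymm (cN_sub _) fun w hw => ?_
          exact ⟨all_inf hT.isAcyclic h2 hw, all_inf hT.isAcyclic h2 (SimpleGraph.Adj.symm hw)⟩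
        rw [this, hx]
        simp
    rw [hC]
    calc 3 * ∫⁻ x, ((x.1.neighborSet x.2).encard : ℝ≥0∞) ∂μ ≤ 3 * 2 := by gcongr
      _ = _ := by norm_num
  · rw [h1, ← lintegral_const_mul _ (m_c.fun_add (m_out.const_mul 2))]
    have h4 : ∫⁻ x, ((cN x.1 x.2).encard : ℝ≥0∞) ∂μ + 2 * d =
        ∫⁻ x, (((cN x.1 x.2).encard : ℝ≥0∞) + 2 * d) ∂μ := by
      rw [lintegral_add_left m_c]; simp
    rw [h4]
    refine lintegral_mono_ae ?_
    filter_upwards [hgood, hdeg] with x hx hdx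
    have hc : ((cN x.1 x.2).encard : ℝ≥0∞) ≤ d := by
      have := ENat.toENNReal_le.2 ((Set.encard_le_encard (cN_sub x.2)).trans hdx)
      simpa using this
    have hd3 : (3 : ℝ≥0∞) ≤ d := by exact_mod_cast h3
    rcases out_cases hx.1 x.2 with h | ⟨h, h'⟩
    · rw [h]
      simp only [ENat.toENNReal_zero, mul_zero, add_zero]
      calc 3 * ((cN x.1 x.2).encard : ℝ≥0∞)
          = (cN x.1 x.2).encard + 2 * ((cN x.1 x.2).encard : ℝ≥0∞) := by ring
        _ ≤ _ := by gcongr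
    · rw [h, h']
      simp only [ENat.toENNReal_zero, ENat.toENNReal_one, mul_one, zero_add]
      calc (3 : ℝ≥0∞) * 2 = 2 * 3 := by ring
        _ ≤ _ := by gcongr

lemma c_le {T : SimpleGraph ℕ} {d v : ℕ} (h : (T.neighborSet v).encard ≤ d) :
    (cN T v).ncard ≤ d := by
  have h1 := (Set.encard_le_encard (cN_sub v)).trans h
  have hf : (cN T v).Finite := Set.finite_of_encard_le_coe h1
  rw [← hf.cast_ncard_eq] at h1
  exact_mod_cast h1

lemma card_lt {d c : ℕ} (h : c ≤ d) : ∑ a : Fin d, ind (a.val < c) = c := by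
  rw [Fin.sum_univ_eq_sum_range (fun a => ind (a < c)) d]
  induction d, h using Nat.le_induction with
  | base =>
    rw [Finset.sum_congr rfl (g := fun _ => 1) (fun a ha => by
      simp [ind, Finset.mem_range.1 ha])]
    simp
  | succ n hn ih =>
    rw [Finset.sum_range_succ, ih]
    simp [ind, hn]

lemma density {d : ℕ}
    (hgood : ∀ᵐ x ∂μ, x.1.IsTree ∧ ∀ v, (x.1.neighborSet v).Finite)
    (hdeg : ∀ᵐ x ∂μ, (x.1.neighborSet x.2).encard ≤ (d : ℕ∞)) :
    nu d μ {y | ∃ v, y.2.Adj y.1.2 v} =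
      (d : ℝ≥0∞)⁻¹ * ∫⁻ x, ((cN x.1 x.2).encard : ℝ≥0∞) ∂μ := by
  have hp : Measurable fun y : (SimpleGraph ℕ × ℕ) × SimpleGraph ℕ => ∃ v, y.2.Adj y.1.2 v :=
    Measurable.exists fun v =>
      measurable_param (ι := ℕ) (f := fun i (y : (SimpleGraph ℕ × ℕ) × SimpleGraph ℕ) => y.2.Adj i v)
        (fun i => measurable_adj' measurable_snd i v) measurable_fst.snd
  have h1 : nu d μ {y | ∃ v, y.2.Adj y.1.2 v} = ∫⁻ y, ind (∃ v, y.2.Adj y.1.2 v) ∂(nu d μ) := by
    rw [← lintegral_indicator_one hp.setOf]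
    refine lintegral_congr fun y => ?_
    unfold ind
    by_cases h : ∃ v, y.2.Adj y.1.2 v <;> simp [h]
  rw [h1, lintegral_nu d μ (measurable_ind hp), ← lintegral_const_mul _ m_c]
  refine lintegral_congr_ae ?_
  filter_upwards [hgood, hdeg] with x hx hdx
  have hm : Measurable fun z : (ℕ → unitInterval) × Fin d =>
      ind (∃ v, (Lg d x.1 z.1 x.2 z.2).Adj x.2 v) :=
    measurable_ind (Measurable.exists fun v => measurable_adj' (measurable_Lg d measurable_const
      measurable_fst measurable_const measurable_snd) x.2 v)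
  unfold rho
  rw [lintegral_prod _ hm.aemeasurable,
    lintegral_congr_ae (g := fun _ => (d : ℝ≥0∞)⁻¹ * ((cN x.1 x.2).encard : ℝ≥0∞))]
  · simp
  · filter_upwards [lam_inj] with U hU
    rw [lintegral_unif]
    simp only [Lg_root hx.1 hU (hx.2 x.2) (c_le hdx)]
    rw [card_lt (c_le hdx), ← ((hx.2 x.2).subset (cN_sub x.2)).cast_ncard_eq]
    simp

lemma measurable_line :
    Measurable fun y : (SimpleGraph ℕ × ℕ) × SimpleGraph ℕ => IsLineEnsemble y.1.1 y.2 := by
  refine Measurable.and ?_ (Measurable.forall fun v => ?_)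
  · exact Measurable.forall fun u => Measurable.forall fun v =>
      (measurable_adj' measurable_snd u v).imp (measurable_adj' measurable_fst.fst u v)
  · exact (measurable_deg_pred (fun n => n = 0 ∨ n = 2) v).comp measurable_snd

lemma nu_line [SFinite μ] {d : ℕ} (hμ : Unimodular μ)
    (hgood : ∀ᵐ x ∂μ, x.1.IsTree ∧ ∀ v, (x.1.neighborSet v).Finite)
    (hdeg : ∀ᵐ x ∂μ, (x.1.neighborSet x.2).encard ≤ (d : ℕ∞)) :
    ∀ᵐ y ∂(nu d μ), IsLineEnsemble y.1.1 y.2 := by
  have hall := everywhere_deg hμ (fun n => n ≤ d) hdeg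
  unfold nu
  rw [ae_map_iff (measurable_mk d).aemeasurable measurable_line.setOf]
  refine (Measure.ae_prod_iff_ae_ae ((measurable_mk d) measurable_line.setOf)).2 ?_
  filter_upwards [hgood, hall] with x hx hdx
  have h2 : ∀ᵐ z ∂(rho d), Function.Injective z.1 := by
    unfold rho
    exact Measure.quasiMeasurePreserving_fst.ae lam_inj
  filter_upwards [h2] with z hz
  exact ⟨Lg_le _ _, Lg_deg hx.1 hz hx.2 (fun v => c_le (hdx v)) _ _⟩

theorem main {d : ℕ} (hd : 2 ≤ d) (μ : Measure (SimpleGraph ℕ × ℕ)) [IsProbabilityMeasure μ]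
    (hgood : ∀ᵐ x ∂μ, x.1.IsTree ∧ ∀ v, (x.1.neighborSet v).Finite) (hμ : Unimodular μ)
    (hdeg : ∀ᵐ x ∂μ, (x.1.neighborSet x.2).encard ≤ (d : ℕ∞)) :
    ∃ ν : Measure ((SimpleGraph ℕ × ℕ) × SimpleGraph ℕ), IsProbabilityMeasure ν ∧
      ν.map Prod.fst = μ ∧ (∀ᵐ y ∂ν, IsLineEnsemble y.1.1 y.2) ∧ UnimodularMarked ν ∧
      3 * ((∫ x, ((x.1.neighborSet x.2).ncard : ℝ) ∂μ) / d) - 2 ≤
        ν.real {y | ∃ v, y.2.Adj y.1.2 v} := by
  have hd0 : 0 < d := by omega
  refine ⟨nu d μ, nu_prob hd0 μ, nu_fst hd0 μ, nu_line hμ hgood hdeg,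
    nu_unimodular d hμ (hgood.mono fun x hx => hx.1), ?_⟩
  have hk := key_ineq hd hμ hgood hdeg
  have hC : ∫⁻ x, ((cN x.1 x.2).encard : ℝ≥0∞) ∂μ ≤ d := by
    calc _ ≤ ∫⁻ _, (d : ℝ≥0∞) ∂μ := lintegral_mono_ae (hdeg.mono fun x hx => by
          have := ENat.toENNReal_le.2 ((Set.encard_le_encard (cN_sub x.2)).trans hx)
          simpa using this)
      _ = d := by simp
  have hCt : ∫⁻ x, ((cN x.1 x.2).encard : ℝ≥0∞) ∂μ ≠ ⊤ :=
    ne_top_of_le_ne_top (ENNReal.natCast_ne_top d) hC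
  have hI : ∫ x, ((x.1.neighborSet x.2).ncard : ℝ) ∂μ =
      (∫⁻ x, ((x.1.neighborSet x.2).encard : ℝ≥0∞) ∂μ).toReal := by
    rw [← integral_toReal m_deg.aemeasurable]
    · refine integral_congr_ae (hgood.mono fun x hx => ?_)
      simp only
      rw [← (hx.2 x.2).cast_ncard_eq]
      simp
    · refine hgood.mono fun x hx => ?_
      rw [← (hx.2 x.2).cast_ncard_eq]
      simp
  rw [hI, Measure.real, density hgood hdeg, ENNReal.toReal_mul, ENNReal.toReal_inv,
    ENNReal.toReal_natCast]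
  have h2 := ENNReal.toReal_mono (by finiteness) hk
  rw [ENNReal.toReal_mul, ENNReal.toReal_add hCt (by finiteness), ENNReal.toReal_mul] at h2
  simp only [ENNReal.toReal_ofNat, ENNReal.toReal_natCast] at h2
  have hdr : (0 : ℝ) < d := by exact_mod_cast hd0
  rw [sub_le_iff_le_add, ← mul_div_assoc, div_le_iff₀ hdr]
  field_simp
  linarith

end Pool.Agent.H648Z.LE
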