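import Pool.Agent.H648Z.LE.Line

set_option autoImplicit false

namespace Pool.Agent.H648Z.LE

open Relation MeasureTheory

variable {Ω : Type} [MeasurableSpace Ω]

/-- `n`-fold composition -/
def iter {α : Type} (R : α → α → Prop) : ℕ → α → α → Prop
  | 0, a, b => a = b
  | n + 1, a, b => ∃ c, iter R n a c ∧ R c b

lemma rtg_iff_iter {α : Type} (R : α → α → Prop) (a b : α) :
    ReflTransGen R a b ↔ ∃ n, iter R n a b := by
  constructor
  · intro h
    induction h with
    | refl => exact ⟨0, rfl⟩
    | tail _ hr ih =>
      obtain ⟨n, hn⟩ := ih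
      exact ⟨n + 1, _, hn, hr⟩
  · rintro ⟨n, hn⟩
    induction n generalizing b with
    | zero => cases hn; exact ReflTransGen.refl
    | succ n ih =>
      obtain ⟨c, h1, h2⟩ := hn
      exact ReflTransGen.tail (ih c h1) h2

lemma measurable_rtg {α : Type} [Countable α] {R : Ω → α → α → Prop}
    (hR : ∀ a b, Measurable fun ω => R ω a b) (a b : α) :
    Measurable fun ω => ReflTransGen (R ω) a b := by
  have h1 : ∀ n b, Measurable fun ω => iter (R ω) n a b := by
    intro n
    induction n with
    | zero => intro b; exact measurable_const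
    | succ n ih => intro b; exact Measurable.exists fun c => (ih c).and (hR c b)
  simp only [rtg_iff_iter]
  exact Measurable.exists fun n => h1 n b

/-- replacing a parameter from a countable space by a measurable function -/
lemma measurable_param {ι γ : Type} [Countable ι] [MeasurableSpace ι] [MeasurableSingletonClass ι]
    [MeasurableSpace γ] {f : ι → Ω → γ} (hf : ∀ i, Measurable (f i)) {b : Ω → ι}
    (hb : Measurable b) : Measurable fun ω => f (b ω) ω := by
  have h : Measurable fun p : Ω × ι => f p.2 p.1 :=
    measurable_from_prod_countable_left fun i => hf i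
  exact h.comp (measurable_id.prodMk hb)

variable {G : Ω → SimpleGraph ℕ}

lemma measurable_adj' (hG : Measurable G) (u v : ℕ) : Measurable fun ω => (G ω).Adj u v :=
  SimpleGraph.measurable_iff_adj.1 hG u v

lemma measurable_side (hG : Measurable G) (v w : ℕ) : Measurable fun ω => side (G ω) v w := by
  refine measurable_set_iff.2 fun x => ?_
  exact measurable_rtg (R := fun ω => avoid (G ω) v)
    (fun a b => (measurable_adj' hG a b).and measurable_const) w x

lemma measurable_inf (hG : Measurable G) (v w : ℕ) : Measurable fun ω => Inf (G ω) v w := by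
  refine (measurable_adj' hG v w).and ?_
  exact (measurableSet_setOfPred.1 MeasurableSet.setOfPred_infinite).comp (measurable_side hG v w)

lemma measurable_core (hG : Measurable G) (v w : ℕ) : Measurable fun ω => Core (G ω) v w :=
  (measurable_inf hG v w).and (measurable_inf hG w v)

lemma measurable_out (hG : Measurable G) (v w : ℕ) : Measurable fun ω => Out (G ω) v w :=
  (measurable_inf hG v w).and (measurable_inf hG w v).not

lemma measurable_cN (hG : Measurable G) (v : ℕ) : Measurable fun ω => cN (G ω) v :=
  measurable_set_iff.2 fun w => measurable_core hG v w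

lemma measurable_nbr (hG : Measurable G) (v : ℕ) : Measurable fun ω => (G ω).neighborSet v :=
  measurable_set_iff.2 fun w => measurable_adj' hG v w

variable {U : Ω → ℕ → unitInterval}

lemma measurable_rk (hG : Measurable G) (hU : Measurable U) (v w : ℕ) :
    Measurable fun ω => rk (G ω) (U ω) v w := by
  refine measurable_ncard.comp (measurable_set_iff.2 fun x => ?_)
  refine (measurable_core hG v x).and ?_
  exact measurableSet_setOfPred.1
    (measurableSet_lt ((measurable_pi_apply x).comp hU) ((measurable_pi_apply w).comp hU))

lemma measurable_tau_pred (d : ℕ) (hG : Measurable G) (hU : Measurable U) (u v u' v' : ℕ)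
    (P : Equiv.Perm (Fin d) → Equiv.Perm (Fin d) → Prop) :
    Measurable fun ω => P (tau d (G ω) (U ω) u v) (tau d (G ω) (U ω) u' v') := by
  have h1 : Measurable fun ω => ((rk (G ω) (U ω) u v, (cN (G ω) u).ncard),
      (rk (G ω) (U ω) u' v', (cN (G ω) u').ncard)) :=
    ((measurable_rk hG hU u v).prodMk (measurable_ncard.comp (measurable_cN hG u))).prodMk
      ((measurable_rk hG hU u' v').prodMk (measurable_ncard.comp (measurable_cN hG u')))
  have h2 : Measurable fun q : (ℕ × ℕ) × (ℕ × ℕ) => P (gp d q.1.1 q.1.2) (gp d q.2.1 q.2.2) :=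
    Measurable.of_discrete
  exact h2.comp h1

lemma measurable_Lg0 (d : ℕ) (hG : Measurable G) (hU : Measurable U) (b : ℕ) (a : Fin d) :
    Measurable fun ω => Lg d (G ω) (U ω) b a := by
  refine SimpleGraph.measurable_iff_adj.2 fun u v => ?_
  refine (measurable_core hG u v).and (Measurable.exists fun a' => Measurable.and ?_ ?_)
  · refine measurable_rtg (R := fun ω => step (G ω) (tau d (G ω) (U ω))) (fun p q => ?_) _ _
    exact (measurable_adj' hG _ _).and
      (measurable_tau_pred d hG hU p.1 q.1 q.1 p.1 (fun s t => s p.2 = t q.2))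
  · exact measurable_tau_pred d hG hU u v u v (fun s _ => (s a').val < 2)

lemma measurable_Lg (d : ℕ) (hG : Measurable G) (hU : Measurable U) {b : Ω → ℕ}
    (hb : Measurable b) {a : Ω → Fin d} (ha : Measurable a) :
    Measurable fun ω => Lg d (G ω) (U ω) (b ω) (a ω) :=
  measurable_param (ι := ℕ × Fin d) (f := fun i ω => Lg d (G ω) (U ω) i.1 i.2)
    (fun i => measurable_Lg0 d hG hU i.1 i.2) (hb.prodMk ha)

end Pool.Agent.H648Z.LE
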