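import Pool.Agent.H648Z.LE.Meas
import Pool.Agent.H648Z.LE.Defs

set_option autoImplicit false

namespace Pool.Agent.H648Z.LE

open MeasureTheory
open scoped ENNReal

/-- i.i.d. uniform labels -/
noncomputable def lam : Measure (ℕ → unitInterval) :=
  Measure.infinitePi (fun _ : ℕ => (volume : Measure unitInterval))

instance : IsProbabilityMeasure lam := by unfold lam; infer_instance

/-- uniform measure on `Fin d` -/
noncomputable def unif (d : ℕ) : Measure (Fin d) := (d : ℝ≥0∞)⁻¹ • Measure.count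

lemma lintegral_unif (d : ℕ) (H : Fin d → ℝ≥0∞) :
    ∫⁻ a, H a ∂(unif d) = (d : ℝ≥0∞)⁻¹ * ∑ a, H a := by
  unfold unif
  rw [lintegral_smul_measure, lintegral_count, tsum_fintype, smul_eq_mul]

lemma unif_prob {d : ℕ} (hd : 0 < d) : IsProbabilityMeasure (unif d) := by
  constructor
  have h := lintegral_unif d (fun _ => 1)
  simp only [lintegral_const, one_mul, Finset.sum_const, Finset.card_univ, Fintype.card_fin,
    nsmul_eq_mul, mul_one] at h
  rw [h]
  exact ENNReal.inv_mul_cancel (by exact_mod_cast hd.ne') (ENNReal.natCast_ne_top d)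

instance (d : ℕ) : SFinite (unif d) := by unfold unif; infer_instance

lemma lam_perm (e : ℕ ≃ ℕ) : lam.map (fun U => U ∘ e) = lam := by
  unfold lam
  refine Measure.eq_infinitePi _ fun s t ht => ?_
  have hm : Measurable fun U : ℕ → unitInterval => U ∘ e :=
    measurable_pi_lambda _ fun i => measurable_pi_apply (e i)
  rw [Measure.map_apply hm (MeasurableSet.pi s.countable_toSet fun i _ => ht i)]
  have h1 : (fun U : ℕ → unitInterval => U ∘ e) ⁻¹' (Set.pi (s : Set ℕ) t) =
      Set.pi ((s.map e.toEmbedding : Finset ℕ) : Set ℕ) (fun j => t (e.symm j)) := by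
    ext U
    simp only [Set.mem_preimage, Set.mem_pi, Finset.mem_coe, Function.comp_apply, Finset.mem_map,
      Equiv.coe_toEmbedding, forall_exists_index, and_imp, forall_apply_eq_imp_iff₂,
      Equiv.symm_apply_apply]
  rw [h1, Measure.infinitePi_pi _ (fun j _ => ht _), Finset.prod_map]
  simp

lemma lam_inj : ∀ᵐ U ∂lam, Function.Injective U := by
  have h : ∀ i j : ℕ, ∀ᵐ U ∂lam, U i = U j → i = j := by
    intro i j
    by_cases hij : i = j
    · exact Filter.Eventually.of_forall fun _ _ => hij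
    have h1 := Measure.infinitePi_map_eval_prod
      (P := fun _ : ℕ => (volume : Measure unitInterval)) hij
    have hm : Measurable fun ω : ℕ → unitInterval => (ω i, ω j) :=
      (measurable_pi_apply i).prodMk (measurable_pi_apply j)
    have hD : MeasurableSet {p : unitInterval × unitInterval | p.1 = p.2} :=
      measurableSet_eq_fun measurable_fst measurable_snd
    have h2 : ((volume : Measure unitInterval).prod volume) {p | p.1 = p.2} = 0 := by
      rw [Measure.measure_prod_null hD]
      refine Filter.Eventually.of_forall fun x => ?_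
      have : Prod.mk x ⁻¹' {p : unitInterval × unitInterval | p.1 = p.2} = {x} := by
        ext y; simp [eq_comm]
      simp only [this, measure_singleton, Pi.zero_apply]
    rw [← h1, Measure.map_apply hm hD] at h2
    have h3 : ∀ᵐ U ∂lam, ¬ U i = U j := by
      rw [ae_iff]
      simp only [not_not]
      exact h2
    exact h3.mono fun U hU h => absurd h hU
  have h2 : ∀ᵐ U ∂lam, ∀ i j : ℕ, U i = U j → i = j :=
    ae_all_iff.2 fun i => ae_all_iff.2 fun j => h i j
  exact h2.mono fun U hU i j => hU i j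

/-- the extra randomness -/
noncomputable def rho (d : ℕ) : Measure ((ℕ → unitInterval) × Fin d) := lam.prod (unif d)

instance (d : ℕ) : SFinite (rho d) := by unfold rho; infer_instance

lemma rho_prob {d : ℕ} (hd : 0 < d) : IsProbabilityMeasure (rho d) := by
  have := unif_prob hd
  unfold rho; infer_instance

/-- the marking map -/
noncomputable def mk (d : ℕ) (z : (SimpleGraph ℕ × ℕ) × ((ℕ → unitInterval) × Fin d)) :
    (SimpleGraph ℕ × ℕ) × SimpleGraph ℕ := (z.1, Lg d z.1.1 z.2.1 z.1.2 z.2.2)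

lemma measurable_mk (d : ℕ) : Measurable (mk d) :=
  measurable_fst.prodMk (measurable_Lg d measurable_fst.fst measurable_snd.fst measurable_fst.snd
    measurable_snd.snd)

/-- the law of the marked tree -/
noncomputable def nu (d : ℕ) (μ : Measure (SimpleGraph ℕ × ℕ)) :
    Measure ((SimpleGraph ℕ × ℕ) × SimpleGraph ℕ) := (μ.prod (rho d)).map (mk d)

lemma lintegral_nu (d : ℕ) (μ : Measure (SimpleGraph ℕ × ℕ))
    {H : (SimpleGraph ℕ × ℕ) × SimpleGraph ℕ → ℝ≥0∞} (hH : Measurable H) :
    ∫⁻ y, H y ∂(nu d μ) = ∫⁻ x, ∫⁻ z, H (x, Lg d x.1 z.1 x.2 z.2) ∂(rho d) ∂μ := by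
  unfold nu
  rw [lintegral_map hH (measurable_mk d),
    lintegral_prod (fun a => H (mk d a)) (hH.comp (measurable_mk d)).aemeasurable]
  rfl

lemma nu_fst {d : ℕ} (hd : 0 < d) (μ : Measure (SimpleGraph ℕ × ℕ)) [SFinite μ] :
    (nu d μ).map Prod.fst = μ := by
  have := rho_prob hd
  unfold nu
  rw [Measure.map_map measurable_fst (measurable_mk d)]
  have : (Prod.fst ∘ mk d) = Prod.fst := rfl
  rw [this, Measure.map_fst_prod, measure_univ, one_smul]

lemma nu_prob {d : ℕ} (hd : 0 < d) (μ : Measure (SimpleGraph ℕ × ℕ)) [IsProbabilityMeasure μ] :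
    IsProbabilityMeasure (nu d μ) := by
  have := rho_prob hd
  unfold nu
  exact Measure.isProbabilityMeasure_map (measurable_mk d).aemeasurable

lemma rho_base (d : ℕ) {T : SimpleGraph ℕ} (hT : T.IsTree) (b b' : ℕ)
    {H : SimpleGraph ℕ → ℝ≥0∞} (hH : Measurable H) :
    ∫⁻ z, H (Lg d T z.1 b z.2) ∂(rho d) = ∫⁻ z, H (Lg d T z.1 b' z.2) ∂(rho d) := by
  have hm : ∀ c : ℕ, Measurable fun z : (ℕ → unitInterval) × Fin d => H (Lg d T z.1 c z.2) :=
    fun c => hH.comp (measurable_Lg d measurable_const measurable_fst measurable_const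
      measurable_snd)
  unfold rho
  rw [lintegral_prod _ (hm b).aemeasurable, lintegral_prod _ (hm b').aemeasurable]
  refine lintegral_congr fun U => ?_
  rw [lintegral_unif, lintegral_unif]
  obtain ⟨e, he⟩ := Lg_base (d := d) hT U b b'
  simp only [he]
  rw [Equiv.sum_comp e (fun a => H (Lg d T U b' a))]

lemma rho_perm (d : ℕ) (e : ℕ ≃ ℕ) {H : (ℕ → unitInterval) × Fin d → ℝ≥0∞} (hH : Measurable H) :
    ∫⁻ z, H z ∂(rho d) = ∫⁻ z, H (z.1 ∘ e, z.2) ∂(rho d) := by
  have hm : Measurable fun U : ℕ → unitInterval => U ∘ e :=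
    measurable_pi_lambda _ fun i => measurable_pi_apply (e i)
  have hm2 : Measurable fun z : (ℕ → unitInterval) × Fin d => (z.1 ∘ e, z.2) :=
    (hm.comp measurable_fst).prodMk measurable_snd
  unfold rho
  rw [lintegral_prod _ hH.aemeasurable,
    lintegral_prod (fun z : (ℕ → unitInterval) × Fin d => H (z.1 ∘ e, z.2))
      (hH.comp hm2).aemeasurable]
  have h3 : Measurable fun U : ℕ → unitInterval => ∫⁻ a, H (U, a) ∂(unif d) :=
    hH.lintegral_prod_right'
  conv_lhs => rw [← lam_perm e]
  rw [lintegral_map h3 hm]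

theorem nu_unimodular (d : ℕ) {μ : Measure (SimpleGraph ℕ × ℕ)} (hμ : Unimodular μ)
    (htree : ∀ᵐ x ∂μ, x.1.IsTree) : UnimodularMarked (nu d μ) := by
  intro F hF hinv
  let Gf : SimpleGraph ℕ × ℕ × ℕ → ℝ≥0∞ := fun p =>
    ∫⁻ z, F ((p.1, Lg d p.1 z.1 p.2.1 z.2), p.2.1, p.2.2) ∂(rho d)
  have hGm : Measurable Gf := by
    refine Measurable.lintegral_prod_right' (ν := rho d)
      (f := fun q : (SimpleGraph ℕ × ℕ × ℕ) × ((ℕ → unitInterval) × Fin d) =>
        F ((q.1.1, Lg d q.1.1 q.2.1 q.1.2.1 q.2.2), q.1.2.1, q.1.2.2)) (hF.comp ?_)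
    exact (measurable_fst.fst.prodMk (measurable_Lg d measurable_fst.fst measurable_snd.fst
      measurable_fst.snd.fst measurable_snd.snd)).prodMk measurable_fst.snd
  have hFz : ∀ (T : SimpleGraph ℕ) (b u v : ℕ), Measurable fun z : (ℕ → unitInterval) × Fin d =>
      F ((T, Lg d T z.1 b z.2), u, v) := fun T b u v =>
    hF.comp ((measurable_const.prodMk (measurable_Lg d measurable_const measurable_fst
      measurable_const measurable_snd)).prodMk measurable_const)
  have hGi : ∀ (T T' : SimpleGraph ℕ) (φ : T ≃g T') (u v : ℕ), Gf (T', φ u, φ v) = Gf (T, u, v) := by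
    intro T T' φ u v
    simp only [Gf]
    rw [rho_perm d φ.symm.toEquiv (hFz T' (φ u) (φ u) (φ v))]
    refine lintegral_congr fun z => ?_
    exact hinv T T' _ _ φ (fun a b => Lg_map φ z.1 u z.2 a b) u v
  have key := hμ Gf hGm hGi
  have hm1 : Measurable fun y : (SimpleGraph ℕ × ℕ) × SimpleGraph ℕ =>
      ∑' v, F ((y.1.1, y.2), y.1.2, v) :=
    Measurable.tsum fun v => hF.comp ((measurable_fst.fst.prodMk measurable_snd).prodMk
      (measurable_fst.snd.prodMk measurable_const))
  have hm2 : Measurable fun y : (SimpleGraph ℕ × ℕ) × SimpleGraph ℕ =>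
      ∑' v, F ((y.1.1, y.2), v, y.1.2) :=
    Measurable.tsum fun v => hF.comp ((measurable_fst.fst.prodMk measurable_snd).prodMk
      (measurable_const.prodMk measurable_fst.snd))
  rw [lintegral_nu d μ hm1, lintegral_nu d μ hm2]
  calc _ = ∫⁻ x, ∑' v, Gf (x.1, x.2, v) ∂μ := by
        refine lintegral_congr fun x => ?_
        exact lintegral_tsum fun v => (hFz x.1 x.2 x.2 v).aemeasurable
    _ = ∫⁻ x, ∑' v, Gf (x.1, v, x.2) ∂μ := key
    _ = _ := by
        refine lintegral_congr_ae (htree.mono fun x hx => ?_)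
        simp only
        rw [lintegral_tsum fun v => (hFz x.1 x.2 v x.2).aemeasurable]
        refine tsum_congr fun v => ?_
        exact rho_base d hx v x.2 (H := fun L => F ((x.1, L), v, x.2))
          (hF.comp ((measurable_const.prodMk measurable_id).prodMk measurable_const))

end Pool.Agent.H648Z.LE
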